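import Pool.Agent.H40.ISH.Stmts

/-! Module NEA of project ISH. -/

namespace Pool.ISH

open MeasureTheory Filter Topology
open scoped Classical Pointwise

theorem nea_magn {N : ℕ} {A : Finset Site} (hA : A ⊆ Vb N) : magn N A = mg N A := by
  unfold magn mg
  have h1 : ∑ x ∈ Vb N, spin N A x = ∑ x ∈ Vb N, ((if x ∈ A then 2 else 0 : ℤ) - 1) := by
    apply Finset.sum_congr rfl
    intro x hx
    unfold spin
    rw [if_pos hx]
    split_ifs <;> norm_num
  rw [h1, Finset.sum_sub_distrib, ← Finset.sum_filter, Finset.sum_const, Finset.sum_const]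
  have h2 : (Vb N).filter (fun x => x ∈ A) = A := by
    ext x
    simp only [Finset.mem_filter]
    exact ⟨fun h => h.2, fun h => ⟨hA h, h⟩⟩
  rw [h2]
  simp only [nsmul_eq_mul]
  ring

theorem nea : NEAStmt := by
  intro N b m hN hb0 hb1 hm
  obtain ⟨⟨A, hA, hAm⟩, hmin⟩ := hm
  have hN3 : (1 : ℝ) ≤ (N : ℝ) ^ 3 := by
    have : (1 : ℝ) ≤ N := by exact_mod_cast hN
    exact one_le_pow₀ this
  refine ⟨?_, ⟨A, ?_⟩⟩
  · obtain ⟨B, hB, hBc⟩ : ∃ B ⊆ Vb N, B.card = 4 * N ^ 3 + 6 * N ^ 2 + 3 * N + 1 := by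
      apply Finset.exists_subset_card_eq
      rw [card_Vb]
      nlinarith [Nat.zero_le (N ^ 3), Nat.zero_le (N ^ 2), Nat.zero_le N]
    have h1 : magn N B = 1 := by
      rw [nea_magn hB]
      unfold mg
      rw [hBc, card_Vb]
      push_cast
      ring
    have h2 := hmin B hB
    rw [h1] at h2
    set t : ℝ := b * (N : ℝ) ^ 3 with ht
    have ht0 : 0 ≤ t := by positivity
    have ht1 : t ≤ (N : ℝ) ^ 3 := by
      rw [ht]
      exact mul_le_of_le_one_left (by positivity) hb1
    have h3 : |(m : ℝ)| ≤ 2 * (N : ℝ) ^ 3 := by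
      have h4 : |(m : ℝ)| ≤ |(m : ℝ) - t| + |t| := by
        have := abs_add_le ((m : ℝ) - t) t
        simpa using this
      rw [abs_of_nonneg ht0] at h4
      push_cast at h2
      rcases le_total t 1 with h | h
      · rw [abs_of_nonneg (by linarith : (0 : ℝ) ≤ 1 - t)] at h2
        linarith
      · rw [abs_of_nonpos (by linarith : (1 : ℝ) - t ≤ 0)] at h2
        linarith
    exact_mod_cast h3
  · unfold Cf
    rw [Finset.mem_filter, Finset.mem_powerset]
    exact ⟨hA, by rw [← nea_magn hA, hAm]⟩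

end Pool.ISH
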