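import Pool.Agent.H40.ISH.Stmts

/-! Module TY2 of project ISH. -/

namespace Pool.ISH

open MeasureTheory Filter Topology
open scoped Classical Pointwise

theorem ty2_count (hCNT : CNTStmt) (N n : ℕ) :
    (((BV N).powerset).filter (fun γ : Finset Bond => (γ.Nonempty ∧ γ.card < Lg N ∧
        ∀ b ∈ γ, ∀ c ∈ γ, Rch (γ : Set Bond) b c) ∧ γ.card = n)).card ≤
      (BV N).card * 2 ^ (81 * n) := by
  refine le_trans (Finset.card_le_card (t := (BV N).biUnion (fun b =>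
    ((BV N).powerset).filter (fun G : Finset Bond => {b} ⊆ G ∧ G.card = n ∧
      ∀ c ∈ G, ∃ d ∈ ({b} : Finset Bond), Rch (G : Set Bond) d c))) ?_) ?_
  · intro γ hγ
    rw [Finset.mem_filter, Finset.mem_powerset] at hγ
    obtain ⟨h1, ⟨⟨b, hb⟩, h3, h4⟩, h5⟩ := hγ
    rw [Finset.mem_biUnion]
    refine ⟨b, h1 hb, ?_⟩
    rw [Finset.mem_filter, Finset.mem_powerset]
    refine ⟨h1, by simpa using hb, h5, ?_⟩
    intro c hc
    exact ⟨b, by simp, h4 b hb c hc⟩
  · apply Finset.card_biUnion_le_card_mul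
    intro b hb
    exact hCNT (BV N) {b} n

theorem ty2_sum (hCNT : CNTStmt) (N : ℕ) (r : ℝ) (hr : 0 ≤ r) (hq : 2 ^ 81 * r ≤ 1 / 2) :
    ∑ γ ∈ ((BV N).powerset).filter (fun γ : Finset Bond => γ.Nonempty ∧ γ.card < Lg N ∧
        ∀ b ∈ γ, ∀ c ∈ γ, Rch (γ : Set Bond) b c), r ^ γ.card ≤
      (BV N).card * (2 * (2 ^ 81 * r)) := by
  have hq0 : 0 ≤ 2 ^ 81 * r := by positivity
  rw [← Finset.sum_fiberwise_of_maps_to (g := fun γ : Finset Bond => γ.card)
    (t := Finset.Ico 1 (Lg N))]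
  · have h1 : ∀ n ∈ Finset.Ico 1 (Lg N),
        ∑ γ ∈ (((BV N).powerset).filter (fun γ : Finset Bond => γ.Nonempty ∧ γ.card < Lg N ∧
          ∀ b ∈ γ, ∀ c ∈ γ, Rch (γ : Set Bond) b c)).filter (fun γ => γ.card = n),
            r ^ γ.card ≤ (BV N).card * (2 ^ 81 * r) ^ n := by
      intro n hn
      rw [Finset.filter_filter]
      have h2 : ∀ γ ∈ ((BV N).powerset).filter (fun γ : Finset Bond => (γ.Nonempty ∧
          γ.card < Lg N ∧ ∀ b ∈ γ, ∀ c ∈ γ, Rch (γ : Set Bond) b c) ∧ γ.card = n),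
            r ^ γ.card ≤ r ^ n := by
        intro γ hγ
        rw [Finset.mem_filter] at hγ
        rw [hγ.2.2]
      refine le_trans (Finset.sum_le_card_nsmul _ _ _ h2) ?_
      rw [nsmul_eq_mul, mul_pow, ← mul_assoc]
      apply mul_le_mul_of_nonneg_right _ (by positivity)
      have h3 := ty2_count hCNT N n
      have h4 : ((((BV N).powerset).filter (fun γ : Finset Bond => (γ.Nonempty ∧ γ.card < Lg N ∧
        ∀ b ∈ γ, ∀ c ∈ γ, Rch (γ : Set Bond) b c) ∧ γ.card = n)).card : ℝ) ≤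
          (((BV N).card * 2 ^ (81 * n) : ℕ) : ℝ) := by exact_mod_cast h3
      refine le_trans h4 (le_of_eq ?_)
      push_cast
      rw [pow_mul]
    refine le_trans (Finset.sum_le_sum h1) ?_
    rw [← Finset.mul_sum]
    apply mul_le_mul_of_nonneg_left _ (by positivity)
    have h5 : ∀ M : ℕ, ∑ n ∈ Finset.Ico 1 M, (2 ^ 81 * r) ^ n ≤ 2 * (2 ^ 81 * r) := by
      intro M
      have h6 : ∑ n ∈ Finset.Ico 1 M, (2 ^ 81 * r) ^ n =
          (2 ^ 81 * r) * ∑ n ∈ Finset.range (M - 1), (2 ^ 81 * r) ^ n := by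
        rw [Finset.sum_Ico_eq_sum_range, Finset.mul_sum]
        apply Finset.sum_congr rfl
        intro k hk
        rw [pow_add, pow_one]
      rw [h6]
      have h7 : ∑ n ∈ Finset.range (M - 1), (2 ^ 81 * r) ^ n ≤ 2 := by
        have h8 : ∑ n ∈ Finset.range (M - 1), (2 ^ 81 * r) ^ n ≤
            ∑ n ∈ Finset.range (M - 1), ((1 : ℝ) / 2) ^ n := by
          apply Finset.sum_le_sum
          intro i hi
          exact pow_le_pow_left₀ hq0 hq i
        exact le_trans h8 (sum_geometric_two_le _)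
      nlinarith
    exact h5 _
  · intro γ hγ
    rw [Finset.mem_filter] at hγ
    rw [Finset.mem_Ico]
    exact ⟨Finset.card_pos.2 hγ.2.1, hγ.2.2.1⟩

theorem ty2_a (L n : ℕ) (hL : n < L) (β : ℝ) :
    (Real.exp ((n : ℝ) ^ 2 / L) - 1) * Real.exp (-(2 * β * n)) ≤
      1 / L * (4 * Real.exp (1 - 2 * β)) ^ n := by
  have hL0 : (0 : ℝ) < L := by
    have : 0 < L := by omega
    exact_mod_cast this
  have hnL : (n : ℝ) ≤ L := by exact_mod_cast hL.le
  set x : ℝ := (n : ℝ) ^ 2 / L with hx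
  have hx0 : 0 ≤ x := by positivity
  have hxn : x ≤ n := by
    rw [hx, div_le_iff₀ hL0]
    nlinarith [Nat.cast_nonneg (α := ℝ) n]
  have h1 : Real.exp x - 1 ≤ x * Real.exp x := by
    have := Real.add_one_le_exp (-x)
    have h2 : Real.exp (-x) * Real.exp x = 1 := by rw [← Real.exp_add]; simp
    nlinarith [Real.exp_pos x]
  have h3 : Real.exp x ≤ Real.exp n := Real.exp_le_exp.2 hxn
  have h4 : (n : ℝ) ^ 2 ≤ 4 ^ n := by
    have h5 : (n : ℝ) ≤ 2 ^ n := by
      have := Nat.lt_two_pow_self (n := n)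
      exact_mod_cast this.le
    have h6 : ((4 : ℝ)) ^ n = (2 ^ n) ^ 2 := by
      rw [← pow_mul, mul_comm, pow_mul]; norm_num
    rw [h6]
    exact pow_le_pow_left₀ (by positivity) h5 2
  have h7 : (4 * Real.exp (1 - 2 * β)) ^ n = 4 ^ n * (Real.exp n * Real.exp (-(2 * β * n))) := by
    rw [mul_pow, ← Real.exp_nat_mul, ← Real.exp_add]
    congr 2
    ring
  rw [h7]
  have h8 : (Real.exp x - 1) ≤ 1 / L * (4 ^ n * Real.exp n) := by
    refine le_trans h1 ?_
    rw [hx, div_mul_eq_mul_div, one_div, ← div_eq_inv_mul, ← hx]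
    apply div_le_div_of_nonneg_right _ hL0.le
    exact mul_le_mul h4 h3 (Real.exp_pos _).le (by positivity)
  calc (Real.exp x - 1) * Real.exp (-(2 * β * n))
      ≤ 1 / L * (4 ^ n * Real.exp n) * Real.exp (-(2 * β * n)) :=
        mul_le_mul_of_nonneg_right h8 (Real.exp_pos _).le
    _ = 1 / L * (4 ^ n * (Real.exp n * Real.exp (-(2 * β * n)))) := by ring

theorem ty2 (hSMC : SMCStmt) (hCNT : CNTStmt) : TY2Stmt := by
  intro θ hθ
  set δ : ℝ := min (1 / 2) (θ / 750) with hδ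
  have hδ0 : 0 < δ := by
    rw [hδ]
    exact lt_min (by norm_num) (by positivity)
  refine ⟨(1 + Real.log (2 ^ 83 / δ)) / 2, ?_⟩
  intro β hβ N hN
  have hr : 2 ^ 81 * (4 * Real.exp (1 - 2 * β)) ≤ δ := by
    have h1 : 1 - 2 * β ≤ - Real.log (2 ^ 83 / δ) := by linarith
    have h2 : Real.exp (1 - 2 * β) ≤ δ / 2 ^ 83 := by
      refine le_trans (Real.exp_le_exp.2 h1) ?_
      rw [Real.exp_neg, Real.exp_log (by positivity)]
      rw [inv_div]
    calc 2 ^ 81 * (4 * Real.exp (1 - 2 * β)) ≤ 2 ^ 81 * (4 * (δ / 2 ^ 83)) := by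
          apply mul_le_mul_of_nonneg_left _ (by positivity)
          exact mul_le_mul_of_nonneg_left h2 (by norm_num)
      _ = δ := by ring
  have hL1 : 1 ≤ Lg N := by unfold Lg; omega
  have hL0 : (0 : ℝ) < (Lg N : ℝ) := by
    have : 0 < Lg N := by omega
    exact_mod_cast this
  set a : ℕ → ℝ := fun n => Real.exp ((n : ℝ) ^ 2 / Lg N) - 1 with ha
  have ha0 : ∀ n, 0 ≤ a n := by
    intro n
    rw [ha]
    have h0 : (0 : ℝ) ≤ (n : ℝ) ^ 2 / Lg N := by positivity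
    have := Real.one_le_exp h0
    simpa using this
  have h1 := hSMC β N a ha0
  have h2 : ∀ A ∈ (Vb N).powerset, wt β N A * Real.exp ((sm N A : ℝ) / Lg N) =
      wt β N A * ∏ γ ∈ (Ks N A).filter (fun γ => γ.card < Lg N), (1 + a γ.card) := by
    intro A hA
    congr 1
    have h3 : ∀ γ ∈ (Ks N A).filter (fun γ => γ.card < Lg N),
        (1 + a γ.card) = Real.exp ((γ.card : ℝ) ^ 2 / Lg N) := by
      intro γ hγ
      rw [ha]
      ring
    rw [Finset.prod_congr rfl h3, ← Real.exp_sum]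
    congr 1
    unfold sm
    push_cast
    rw [Finset.sum_div]
  rw [Finset.sum_congr rfl h2]
  refine le_trans h1 ?_
  rw [mul_comm]
  have hZ : 0 ≤ ZZ β N (Vb N).powerset := by
    unfold ZZ
    exact Finset.sum_nonneg (fun A _ => (wt_pos β N A).le)
  apply mul_le_mul_of_nonneg_right _ hZ
  apply Real.exp_le_exp.2
  have h4 : ∑ γ ∈ ((BV N).powerset).filter (fun γ : Finset Bond => γ.Nonempty ∧ γ.card < Lg N ∧
        ∀ b ∈ γ, ∀ c ∈ γ, Rch (γ : Set Bond) b c),
          a γ.card * Real.exp (- (2 * β * γ.card)) ≤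
      ∑ γ ∈ ((BV N).powerset).filter (fun γ : Finset Bond => γ.Nonempty ∧ γ.card < Lg N ∧
        ∀ b ∈ γ, ∀ c ∈ γ, Rch (γ : Set Bond) b c),
          1 / (Lg N : ℝ) * (4 * Real.exp (1 - 2 * β)) ^ γ.card := by
    apply Finset.sum_le_sum
    intro γ hγ
    rw [Finset.mem_filter] at hγ
    exact ty2_a (Lg N) γ.card hγ.2.2.1 β
  refine le_trans h4 ?_
  rw [← Finset.mul_sum]
  have h5 := ty2_sum hCNT N (4 * Real.exp (1 - 2 * β)) (by positivity)
    (le_trans hr (min_le_left _ _))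
  have h6 : ((BV N).card : ℝ) ≤ 375 * (N : ℝ) ^ 3 := by
    have h7 := card_BV_le N
    have h8 : (BV N).card ≤ 375 * N ^ 3 := by
      refine le_trans h7 ?_
      have h9 : 2 * N + 3 ≤ 5 * N := by omega
      calc 3 * (2 * N + 3) ^ 3 ≤ 3 * (5 * N) ^ 3 :=
            Nat.mul_le_mul_left 3 (Nat.pow_le_pow_left h9 3)
        _ = 375 * N ^ 3 := by ring
    exact_mod_cast h8
  have h10 : ((BV N).card : ℝ) * (2 * (2 ^ 81 * (4 * Real.exp (1 - 2 * β)))) ≤
      θ * (N : ℝ) ^ 3 := by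
    have h11 : 2 ^ 81 * (4 * Real.exp (1 - 2 * β)) ≤ θ / 750 := le_trans hr (min_le_right _ _)
    calc ((BV N).card : ℝ) * (2 * (2 ^ 81 * (4 * Real.exp (1 - 2 * β)))) ≤
          (375 * (N : ℝ) ^ 3) * (2 * (θ / 750)) := by
            apply mul_le_mul h6 _ (by positivity) (by positivity)
            linarith
      _ = θ * (N : ℝ) ^ 3 := by ring
  calc 1 / (Lg N : ℝ) * _ ≤ 1 / (Lg N : ℝ) * (θ * (N : ℝ) ^ 3) := by
        apply mul_le_mul_of_nonneg_left (le_trans h5 h10) (by positivity)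
    _ = θ * (N : ℝ) ^ 3 / Lg N := by ring

end Pool.ISH
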